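import Mathlib

/-!
# Least order of an abelian group with unique multiset sums

The least order of a finite abelian group containing a family of `n` elements with unique multiset
sums is exactly `2^(n-1)`.
-/

set_option autoImplicit false

open Finset

namespace Pool.Agent.Results.MP_6623a1_co.LeastOrder

/-- The family `g` has unique multiset sums: the only vector `k` of nonnegative integers with
`∑ k_j = n` and `∑ k_j g_j = ∑ g_j` is `k = (1, …, 1)`. -/
def UniqueMultisetSums {G : Type} [AddCommGroup G] {n : ℕ} (g : Fin n → G) : Prop :=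
  ∀ k : Fin n → ℕ, ∑ j, k j = n → ∑ j, k j • g j = ∑ j, g j → ∀ j, k j = 1

/-- `m(n)`: the least order of a finite abelian group containing a family of `n` elements with
unique multiset sums. -/
noncomputable def leastOrder (n : ℕ) : ℕ :=
  sInf {N | ∃ (G : Type) (_ : AddCommGroup G) (_ : Finite G) (g : Fin n → G),
    UniqueMultisetSums g ∧ Nat.card G = N}

theorem lower {G : Type} [AddCommGroup G] [Finite G] {d : ℕ} (g : Fin (d + 1) → G)
    (hg : UniqueMultisetSums g) : 2 ^ d ≤ Nat.card G := by
  classical
  have := Fintype.ofFinite G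
  -- the `2 ^ d` subset sums of the `g (i+1) - g 0` are distinct
  have hinj : Function.Injective (fun S : Finset (Fin d) => ∑ i ∈ S, (g i.succ - g 0)) := by
    -- it is enough to treat `#S ≤ #T`
    have aux : ∀ S T : Finset (Fin d), S.card ≤ T.card →
        ∑ i ∈ S, (g i.succ - g 0) = ∑ i ∈ T, (g i.succ - g 0) → S = T := by
      intro S T hcard hST
      have e1 : ∀ U : Finset (Fin d), ∑ i : Fin d, (if i ∈ U then 1 else 0) = U.card := by
        intro U; simp
      have e2 : ∀ U : Finset (Fin d), ∑ i : Fin d, (if i ∈ U then 1 else 0) • g i.succ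
          = ∑ i ∈ U, g i.succ := by
        intro U; simp
      have hk := hg (Fin.cons (1 + (T.card - S.card))
          (fun i => 1 + (if i ∈ S then 1 else 0) - (if i ∈ T then 1 else 0))) (by
        rw [Fin.sum_univ_succ]
        simp only [Fin.cons_zero, Fin.cons_succ]
        have e3 : ∑ i : Fin d, (1 + (if i ∈ S then 1 else 0) - (if i ∈ T then 1 else 0)) +
            ∑ i : Fin d, (if i ∈ T then 1 else 0) = d + ∑ i : Fin d, (if i ∈ S then 1 else 0) := by
          have e0 : d + ∑ i : Fin d, (if i ∈ S then 1 else 0)
              = ∑ i : Fin d, (1 + if i ∈ S then 1 else 0) := by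
            rw [sum_add_distrib]; simp
          rw [e0, ← sum_add_distrib]
          apply sum_congr rfl
          intro i _
          split_ifs <;> rfl
        rw [e1, e1] at e3
        omega) (by
        rw [Fin.sum_univ_succ, Fin.sum_univ_succ]
        simp only [Fin.cons_zero, Fin.cons_succ]
        have e3 : ∑ i : Fin d, (1 + (if i ∈ S then 1 else 0) - (if i ∈ T then 1 else 0)) • g i.succ +
            ∑ i ∈ T, g i.succ = ∑ i : Fin d, g i.succ + ∑ i ∈ S, g i.succ := by
          rw [← e2 T, ← e2 S, ← sum_add_distrib, ← sum_add_distrib]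
          apply sum_congr rfl
          intro i _
          split_ifs <;> simp [two_nsmul]
        rw [sum_sub_distrib, sum_sub_distrib, sum_const, sum_const] at hST
        have e4 : (1 + (T.card - S.card)) • g 0 + S.card • g 0 = g 0 + T.card • g 0 := by
          rw [← add_nsmul]
          have : 1 + (T.card - S.card) + S.card = 1 + T.card := by omega
          rw [this, add_nsmul, one_nsmul]
        have e5 := eq_sub_of_add_eq e3
        have e6 := eq_sub_of_add_eq e4
        rw [e5, e6]
        have e7 : ∑ i ∈ S, g i.succ = ∑ i ∈ T, g i.succ - T.card • g 0 + S.card • g 0 := by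
          rw [← hST]; abel
        rw [e7]
        abel)
      apply Finset.ext
      intro i
      have hi := hk i.succ
      rw [Fin.cons_succ] at hi
      by_cases h1 : i ∈ S <;> by_cases h2 : i ∈ T <;> simp [h1, h2] at hi ⊢
    intro S T hST
    rcases le_total S.card T.card with h | h
    · exact aux S T h hST
    · exact (aux T S h hST.symm).symm
  have := Fintype.card_le_of_injective _ hinj
  rw [Fintype.card_finset, Fintype.card_fin] at this
  rw [Nat.card_eq_fintype_card]
  exact this

theorem upper (d : ℕ) : ∃ g : Fin (d + 1) → (Fin d → ZMod 2), UniqueMultisetSums g := by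
  classical
  refine ⟨Fin.cons 0 (fun i => Pi.single i 1), ?_⟩
  intro k hk hsum
  rw [Fin.sum_univ_succ] at hk
  rw [Fin.sum_univ_succ, Fin.sum_univ_succ] at hsum
  simp only [Fin.cons_zero, Fin.cons_succ, smul_zero, zero_add] at hsum
  have hodd : ∀ i : Fin d, Odd (k i.succ) := by
    intro i
    have h := congrFun hsum i
    simp only [Finset.sum_apply, Pi.smul_apply] at h
    rw [Finset.sum_eq_single i, Finset.sum_eq_single i] at h
    · simp only [Pi.single_eq_same, nsmul_eq_mul, mul_one] at h
      have h' : ((k i.succ : ℕ) : ZMod 2) = ((1 : ℕ) : ZMod 2) := by simpa using h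
      rw [ZMod.natCast_eq_natCast_iff'] at h'
      rw [Nat.odd_iff]
      simpa using h'
    · intro j _ hj; simp [Pi.single_eq_of_ne (Ne.symm hj)]
    · intro h'; exact absurd (mem_univ _) h'
    · intro j _ hj; simp [Pi.single_eq_of_ne (Ne.symm hj)]
    · intro h'; exact absurd (mem_univ _) h'
  have hge : ∀ i : Fin d, 1 ≤ k i.succ := fun i => (hodd i).pos
  have hone : ∀ i : Fin d, k i.succ = 1 := by
    intro i
    by_contra hne
    have h3 : 3 ≤ k i.succ := by
      obtain ⟨l, hl⟩ := hodd i
      omega
    have h1 : d + 2 ≤ ∑ i : Fin d, k i.succ := by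
      have h4 : ∑ j : Fin d, (1 + if j = i then 2 else 0) ≤ ∑ j : Fin d, k j.succ := by
        apply Finset.sum_le_sum
        intro j _
        split_ifs with h
        · subst h; omega
        · have := hge j; omega
      rw [sum_add_distrib] at h4
      simp at h4
      omega
    omega
  intro j
  refine Fin.cases ?_ (fun i => hone i) j
  have : ∑ i : Fin d, k i.succ = d := by
    rw [sum_congr rfl (fun i _ => hone i)]; simp
  omega

/-- For every `n ≥ 1`, the least order of a finite abelian group containing `n` elements with
unique multiset sums is `2^(n-1)`. -/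
theorem result : ∀ n : ℕ, 1 ≤ n → leastOrder n = 2 ^ (n - 1) := by
  intro n hn
  obtain ⟨d, rfl⟩ : ∃ d, n = d + 1 := ⟨n - 1, by omega⟩
  rw [Nat.add_sub_cancel]
  have hmem : 2 ^ d ∈ {N | ∃ (G : Type) (_ : AddCommGroup G) (_ : Finite G) (g : Fin (d + 1) → G),
      UniqueMultisetSums g ∧ Nat.card G = N} := by
    obtain ⟨g, hg⟩ := upper d
    refine ⟨Fin d → ZMod 2, inferInstance, inferInstance, g, hg, ?_⟩
    rw [Nat.card_eq_fintype_card]
    simp
  apply le_antisymm (Nat.sInf_le hmem)
  apply le_csInf ⟨_, hmem⟩
  rintro N ⟨G, _, _, g, hg, rfl⟩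
  exact lower g hg

end Pool.Agent.Results.MP_6623a1_co.LeastOrder
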